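import Pool.Agent.PFD.StmtsD6b

/-!
# PFD, block D6, row CPJ: the crossed product and the projection
-/

open scoped BigOperators

noncomputable section

namespace Pool.Agent.PFD.D6.H32

open Pool.Agent.PFC

section

variable {F V E A : Type} [Field F] [CommGroup V] [Fintype V] [Group E] [Fintype E] [Ring A]
  [Algebra F A]

/-- the element of the crossed product with the coefficients `k` -/
def pf (φ : E →* MulAut V) (z : Coc F E) : (V × E → F) →ₗ[F] CP (D0 φ z) where
  toFun k := ⟨fun e => ∑ v, k (v, e) • MonoidAlgebra.of F V v⟩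
  map_add' k k' := by
    apply CP.ext; funext e
    rw [CP.add_f]
    change ∑ v, (k (v, e) + k' (v, e)) • MonoidAlgebra.of F V v = _
    rw [← Finset.sum_add_distrib]
    exact Finset.sum_congr rfl fun v _ => add_smul _ _ _
  map_smul' t k := by
    apply CP.ext; funext e
    rw [RingHom.id_apply, CP.smul_f]
    change ∑ v, (t * k (v, e)) • MonoidAlgebra.of F V v = _
    rw [Finset.smul_sum]
    exact Finset.sum_congr rfl fun v _ => mul_smul _ _ _

theorem al_apply (α : V →* A) (s : MonoidAlgebra F V) :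
    MonoidAlgebra.lift F A V α s = ∑ v, s.coeff v • α v := by
  rw [MonoidAlgebra.lift_apply, Finsupp.sum_fintype]
  intro v
  exact zero_smul _ _

omit [Fintype V] [Fintype E] in
theorem al_act (φ : E →* MulAut V) (z : Coc F E) (α : V →* A) (n n' : E → A)
    (h : Unt φ α n n' (fun e f => (z.c e f : F))) (e : E) (s : MonoidAlgebra F V) :
    n e * MonoidAlgebra.lift F A V α s =
      MonoidAlgebra.lift F A V α ((D0 φ z).act e s) * n e := by
  change _ = MonoidAlgebra.lift F A V α (MonoidAlgebra.domCongr F F (φ e) s) * n e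
  induction s using MonoidAlgebra.induction_linear with
  | zero => rw [map_zero, map_zero, map_zero, mul_zero, zero_mul]
  | add f g hf hg => rw [map_add, mul_add, hf, hg, map_add, map_add, add_mul]
  | single v r =>
    rw [MonoidAlgebra.domCongr_single, MonoidAlgebra.lift_single, MonoidAlgebra.lift_single,
      mul_smul_comm, smul_mul_assoc, h.tw]

end

/-- CPJ -/
theorem cpj : CpjStmt := by
  intro F V E A _ _ _ _ _ _ _ φ α n n' z lam S r hU hT hL hr hr1 hr2 hr3
  obtain ⟨j, hj1, hj2, hj3⟩ := CP.lift (D := D0 φ z) (MonoidAlgebra.lift F A V α) n hU.one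
    (fun e g => hU.mul e g) (fun e s => al_act φ z α n n' hU e s)
  have hsum : ∀ γ : CP (D0 φ z), j γ = ∑ p : V × E, (γ.f p.2).coeff p.1 • gg α n p := by
    intro γ
    rw [hj3, Fintype.sum_prod_type_right]
    refine Finset.sum_congr rfl fun e _ => ?_
    rw [al_apply, Finset.sum_mul]
    exact Finset.sum_congr rfl fun v _ => smul_mul_assoc _ _ _
  have hpf : ∀ k : V × E → F, j (pf φ z k) = ∑ p, k p • gg α n p := by
    intro k
    rw [hj3, Fintype.sum_prod_type_right]
    refine Finset.sum_congr rfl fun e _ => ?_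
    change MonoidAlgebra.lift F A V α (∑ v, k (v, e) • MonoidAlgebra.of F V v) * n e = _
    rw [map_sum, Finset.sum_mul]
    refine Finset.sum_congr rfl fun v _ => ?_
    rw [map_smul, MonoidAlgebra.lift_of, smul_mul_assoc]
    rfl
  have hS : ∀ x, x ∈ S ↔ ∃ γ, j γ = x := by
    intro x
    rw [hT.spn]
    constructor
    · intro hx
      obtain ⟨k, hk⟩ := (Submodule.mem_span_range_iff_exists_fun F).1 hx
      exact ⟨pf φ z k, by rw [hpf, hk]⟩
    · rintro ⟨γ, rfl⟩
      rw [hsum]
      exact Submodule.sum_mem _ fun p _ => Submodule.smul_mem _ _ (Submodule.subset_span ⟨p, rfl⟩)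
  have hinj : Function.Injective j := by
    rw [injective_iff_map_eq_zero]
    intro γ hγ
    rw [hsum] at hγ
    have h1 := Fintype.linearIndependent_iff.1 hL _ hγ
    apply CP.ext
    funext e
    rw [CP.zero_f]
    ext v
    exact h1 (v, e)
  let pr : A →ₗ[F] CP (D0 φ z) := pf φ z ∘ₗ
    (LinearMap.pi fun p => lam ∘ₗ LinearMap.mulLeft F (gg' α n' p))
  have hpr : ∀ x, j (pr x) = r x := by
    intro x
    rw [hr]
    exact hpf _
  refine ⟨j, pr, ?_, hj2, ?_, hS, hinj, ?_, ?_, ?_, hpr⟩
  · intro u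
    change j (CP.iS (D0 φ z) (MonoidAlgebra.of F V u)) = α u
    rw [hj1, MonoidAlgebra.lift_of]
  · intro e
    unfold ni
    rw [map_smul, hj2]
    have h1 := hU.mul e e⁻¹
    rw [mul_inv_cancel, hU.one] at h1
    have h2 : n e⁻¹ = n' e * (n e * n e⁻¹) := by rw [← mul_assoc, hU.li, one_mul]
    rw [h2, h1, mul_smul_comm, mul_one, smul_smul]
    change ((((z.c e e⁻¹)⁻¹ : Fˣ) : F) * ((z.c e e⁻¹ : Fˣ) : F)) • n' e = n' e
    rw [Units.inv_mul, one_smul]
  · intro γ
    apply hinj
    rw [hpr]
    exact hr1 _ ((hS _).2 ⟨γ, rfl⟩)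
  · intro γ x
    apply hinj
    rw [hpr, map_mul j, hpr]
    exact hr2 _ ((hS _).2 ⟨γ, rfl⟩) x
  · intro x γ
    apply hinj
    rw [hpr, map_mul j, hpr]
    exact hr3 _ ((hS _).2 ⟨γ, rfl⟩) x

end Pool.Agent.PFD.D6.H32
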